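import Pool.Agent.Work.MP_80fcda_co.Final

set_option autoImplicit false

namespace Pool.Agent.Results.MP_80fcda_co.Classification

open Pool.Agent.Work.MP_80fcda_co

/-- The class of connected `H`-contraction-free graphs has bounded clique-width if and only if `H`
is one of `K₁`, `K₂`, `K₃`, `K₄`, `P₃`, the paw, the diamond, the gem and the complement of
`2P₁ + P₃`. -/
theorem result (W : Type) [Finite W] (H : SimpleGraph W) : BoundedCW H ↔
    (∃ m : ℕ, 1 ≤ m ∧ m ≤ 4 ∧ Nonempty (H ≃g (⊤ : SimpleGraph (Fin m)))) ∨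
      Nonempty (H ≃g P3) ∨ Nonempty (H ≃g paw) ∨ Nonempty (H ≃g diamond) ∨
      Nonempty (H ≃g gem) ∨ Nonempty (H ≃g coTwoP1P3) :=
  classification H

end Pool.Agent.Results.MP_80fcda_co.Classification
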